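import Pool.Agent.MT100D.Stmts
import Pool.Agent.Helper97_MTA.Lag

/-! MT100-E: families of the second kind.  The condition `FirstKind` is replaced by the comparison of
the determinants of the isotypic parts. -/

set_option autoImplicit false

namespace Pool.Agent.MT100E

open Matrix Polynomial Pool.Agent.MT100 Pool.Agent.MT100G Pool.Agent.MT100A Pool.Agent.MT100D
  Pool.Agent.Helper78_MT Pool.Agent.MT100A.H78 Pool.Agent.Helper46_MT

universe u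

section defs
variable {d : Type} [Fintype d] [DecidableEq d]

/-- the centre of the commutant -/
def Zt (M : Set (Matrix d d ℂ)) : Set (Matrix d d ℂ) :=
  {A | A ∈ Cmt M ∧ ∀ B ∈ Cmt M, A * B = B * A}

/-- the determinant of `g` on the image of the idempotent `e` (which commutes with `g`) -/
noncomputable def dete (g e : Matrix d d ℂ) : ℂ := (g * e + (1 - e)).det

/-- Comparison of the determinants of the isotypic parts: for idempotents `e i` in the centre of the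
commutant and integers `m i`, the product of the `m i`-th powers of the determinants of `ρ γ` on the
images of the `e i` is `1` for all `γ` in some subgroup of finite index if and only if the same product
for the elements of the Deligne torus and the conjugates of the `e i` under every automorphism of `ℂ`
is `1`. -/
def DetRel (M : Set (Matrix d d ℂ)) (w : ℕ) (V : ℕ → Submodule ℂ (d → ℂ)) {ℓ : ℕ} [Fact ℓ.Prime]
    {Γ : Type*} [Group Γ] (ρ : Γ →* GL d ℚ_[ℓ]) (ι : ℚ_[ℓ] →+* ℂ) : Prop :=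
  ∀ (s : ℕ) (e : Fin s → Matrix d d ℂ) (m : Fin s → ℤ), (∀ i, e i * e i = e i) →
    (∀ i, e i ∈ Zt M) →
    ((∃ Γ' : Subgroup Γ, Γ'.FiniteIndex ∧ ∀ γ ∈ Γ',
      ∏ i, dete ((ρ γ : Matrix d d ℚ_[ℓ]).map ι) (e i) ^ m i = 1) ↔
    ∀ τ : ℂ ≃+* ℂ, ∀ T ∈ hodgeTorus w V, ∏ i, dete T ((e i).map τ) ^ m i = 1)

/-- The representation `ρ` with coefficients in `ℚ_ℓ` is of geometric type for the monodromy group `M`,
the form `E` and the Hodge structure `V`: for some embedding of `ℚ_ℓ` in `ℂ`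
(1) the image of `ρ` normalises the unipotent one parameter subgroups of the Zariski closure of `M`;
(2) the image of some subgroup of finite index commutes with their commutant;
(3) for every subgroup of finite index the Zariski closure of its image contains these unipotents
(comparison theorem);
(4) `M` is of the first kind for `E`, the image of `ρ` consists of similitudes of `E` and some
determinant is not a root of unity (weights), or the determinants of the isotypic parts of `ρ` and `V`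
satisfy the same relations. -/
def GeoN (M : Set (Matrix d d ℂ)) (E : Matrix d d ℚ) (w : ℕ) (V : ℕ → Submodule ℂ (d → ℂ)) {ℓ : ℕ}
    [Fact ℓ.Prime] {Γ : Type*} [Group Γ] (ρ : Γ →* GL d ℚ_[ℓ]) : Prop :=
  ∃ ι : ℚ_[ℓ] →+* ℂ,
    (∀ γ : Γ, ∀ X ∈ nilP M, (ρ γ : Matrix d d ℚ_[ℓ]).map ι * X *
        ((ρ γ : Matrix d d ℚ_[ℓ]).map ι)⁻¹ ∈ nilP M) ∧
    (∃ Γ' : Subgroup Γ, Γ'.FiniteIndex ∧ ∀ γ ∈ Γ', ∀ B ∈ Cmt M,
      (ρ γ : Matrix d d ℚ_[ℓ]).map ι * B = B * (ρ γ : Matrix d d ℚ_[ℓ]).map ι) ∧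
    (∀ Γ' : Subgroup Γ, Γ'.FiniteIndex → ∀ f : MvPolynomial (d × d) ℚ_[ℓ],
      (∀ γ ∈ Γ', pev (ρ γ : Matrix d d ℚ_[ℓ]) f = 0) →
      ∀ u ∈ Uni M, pev u (MvPolynomial.map ι f) = 0) ∧
    ((FirstKind E M ∧ (∀ γ : Γ, ∃ c : ℂ, ((ρ γ : Matrix d d ℚ_[ℓ]).map ι)ᵀ *
        E.map (algebraMap ℚ ℂ) * (ρ γ : Matrix d d ℚ_[ℓ]).map ι = c • E.map (algebraMap ℚ ℂ)) ∧
      ∃ γ : Γ, ∀ m : ℕ, 0 < m → (ρ γ : Matrix d d ℚ_[ℓ]).det ^ m ≠ 1) ∨ DetRel M w V ρ ι)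

/-- the primitive idempotents of the centre of the commutant -/
structure Prim (M : Set (Matrix d d ℂ)) {s : ℕ} (e : Fin s → Matrix d d ℂ) : Prop where
  idem : ∀ i, e i * e i = e i
  orth : ∀ i j, i ≠ j → e i * e j = 0
  sum : ∑ i, e i = 1
  ne : ∀ i, e i ≠ 0
  mem : ∀ i, e i ∈ Zt M
  span : ∀ z ∈ Zt M, ∃ c : Fin s → ℂ, z = ∑ i, c i • e i

/-- the standing assumptions; `π p` is the projection onto `V p` -/
structure Ctx (M : Set (Matrix d d ℂ)) (w : ℕ) (E : Matrix d d ℚ) (V : ℕ → Submodule ℂ (d → ℂ))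
    (π : ℕ → Matrix d d ℂ) : Prop where
  mul : ∀ a ∈ M, ∀ b ∈ M, a * b ∈ M
  int : ∀ γ ∈ M, ∃ A : Matrix d d ℤ, γ = A.map (fun x => (x : ℂ))
  pol : PolHodge w E V
  inv : ∀ γ ∈ M, γᵀ * E.map (algebraMap ℚ ℂ) * γ = E.map (algebraMap ℚ ℂ)
  tor : TorusIn w V M
  proj : Proj w E π
  mem : ∀ p x, π p *ᵥ x ∈ V p
  fix : ∀ p, ∀ x ∈ V p, π p *ᵥ x = x
  zer : ∀ p q, p ≠ q → ∀ x ∈ V q, π p *ᵥ x = 0

end defs

/-! ### Linear algebra -/

/-- JOX: `JorStmt` with `x j` multiplicatively independent and `π a`, `U` in the double commutant -/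
def JoxStmt : Prop :=
  ∀ (d : Type) [Fintype d] [DecidableEq d] (h : Matrix d d ℂ), IsUnit h.det → Neat h →
    ∃ (r n : ℕ) (π : Fin n → Matrix d d ℂ) (m : Fin r → Fin n → ℤ) (x : Fin r → ℂ)
      (U : Matrix d d ℂ),
      (∀ a, π a * π a = π a) ∧ (∀ a b, a ≠ b → π a * π b = 0) ∧ ∑ a, π a = 1 ∧
      (∀ j, x j ≠ 0) ∧ IsNilpotent (U - 1) ∧ (∀ a, π a * U = U * π a) ∧
      h = (∑ a, (∏ j, x j ^ m j a) • π a) * U ∧
      (∀ W : Submodule ℂ (Matrix d d ℂ), (∀ A ∈ W, h * A * h⁻¹ ∈ W) →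
        (∀ A ∈ W, U * A * U⁻¹ ∈ W) ∧
        ∀ j, ∀ A ∈ W, (∑ a, (m j a : ℂ) • π a) * A - A * ∑ a, (m j a : ℂ) • π a ∈ W) ∧
      (∀ k : Fin r → ℤ, ∏ j, x j ^ k j = 1 → k = 0) ∧
      ∀ B : Matrix d d ℂ, h * B = B * h → (∀ a, π a * B = B * π a) ∧ U * B = B * U

/-- DTE: the determinant on the image of an idempotent -/
def DteStmt : Prop :=
  ∀ (d : Type) [Fintype d] [DecidableEq d] (n : ℕ) (π : Fin n → Matrix d d ℂ) (y : Fin n → ℂ)
    (U e : Matrix d d ℂ), (∀ a, π a * π a = π a) → (∀ a b, a ≠ b → π a * π b = 0) →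
    ∑ a, π a = 1 → IsNilpotent (U - 1) → (∀ a, π a * U = U * π a) → e * e = e →
    (∀ a, π a * e = e * π a) → U * e = e * U → ∀ k : Fin n → ℕ,
    (∀ a, (π a * e).trace = (k a : ℂ)) → dete ((∑ a, y a • π a) * U) e = ∏ a, y a ^ k a

/-- LIT: the Lie algebra of a central torus, from the relations between its characters -/
def LitStmt : Prop :=
  ∀ (d : Type) [Fintype d] [DecidableEq d] (s : ℕ) (e : Fin s → Matrix d d ℂ),
    (∀ i, e i * e i = e i) → (∀ i j, i ≠ j → e i * e j = 0) → ∑ i, e i = 1 →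
    ∀ G : Set (Matrix d d ℂ), (∀ a ∈ G, ∀ b ∈ G, a * b ∈ G) →
    ∀ Λ : Set (Fin s → ℂ), (∀ ζ ∈ Λ, ∀ i, ζ i ≠ 0) → (1 : Fin s → ℂ) ∈ Λ →
    (∀ ζ ∈ Λ, ∀ ξ ∈ Λ, ζ * ξ ∈ Λ) → (∀ ζ ∈ Λ, ∑ i, ζ i • e i ∈ G) →
    ∀ v : Fin s → ℂ, (∀ m : Fin s → ℤ, (∀ ζ ∈ Λ, ∏ i, ζ i ^ m i = 1) →
      ∑ i, (m i : ℂ) * v i = 0) → ∑ i, v i • e i ∈ lieOf G

/-- SPN: integral vectors orthogonal to the orthogonal of a set are in its span -/
def SpnStmt : Prop :=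
  ∀ (s : ℕ) (A : Set (Fin s → ℤ)) (c : Fin s → ℤ),
    (∀ m : Fin s → ℤ, (∀ v ∈ A, ∑ i, m i * v i = 0) → ∑ i, m i * c i = 0) →
    (fun i => (c i : ℂ)) ∈ Submodule.span ℂ ((fun (v : Fin s → ℤ) (i : Fin s) => (v i : ℂ)) '' A)

/-! ### The centre of the commutant -/

/-- NFZ: infinitesimal normalisers -/
def NfzStmt : Prop :=
  ∀ (d : Type) [Fintype d] [DecidableEq d] (M : Set (Matrix d d ℂ)) (w : ℕ) (E : Matrix d d ℚ)
    (V : ℕ → Submodule ℂ (d → ℂ)) (π : ℕ → Matrix d d ℂ), Ctx M w E V π →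
    (∀ D : Matrix d d ℂ, (∀ A ∈ UP M, D * A - A * D ∈ UP M) → (∀ B ∈ Cmt M, D * B = B * D) →
      ∃ u ∈ UP M, ∃ z ∈ Zt M, D = u + z) ∧
    ∀ u ∈ UP M, ∀ B ∈ Cmt M, (u * B).trace = 0

/-- PRI: the centre of the commutant is spanned by orthogonal idempotents -/
def PriStmt : Prop :=
  ∀ (d : Type) [Fintype d] [DecidableEq d] (M : Set (Matrix d d ℂ)) (w : ℕ) (E : Matrix d d ℚ)
    (V : ℕ → Submodule ℂ (d → ℂ)) (π : ℕ → Matrix d d ℂ), Ctx M w E V π →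
    ∃ (s : ℕ) (e : Fin s → Matrix d d ℂ), Prim M e

/-- AUT: the action of the automorphisms of `ℂ` -/
def AutStmt : Prop :=
  ∀ (d : Type) [Fintype d] [DecidableEq d] (M : Set (Matrix d d ℂ)) (w : ℕ) (E : Matrix d d ℚ)
    (V : ℕ → Submodule ℂ (d → ℂ)) (π : ℕ → Matrix d d ℂ), Ctx M w E V π →
    (∀ p ≤ w, ∀ B ∈ Cmt M, π p * B = B * π p) ∧
    ∀ τ : ℂ ≃+* ℂ, (∀ B ∈ Cmt M, B.map τ ∈ Cmt M) ∧ (∀ B ∈ Zt M, B.map τ ∈ Zt M) ∧
      (∃ u ∈ UP M, ∃ z ∈ Zt M, (Phi w π).map τ = u + z) ∧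
      ∀ I : Set (MvPolynomial (d × d) ℚ), IsAlgSubgroup I → hodgeTorus w V ⊆ zeros I ℂ → 1 ≤ w →
        (Phi w π).map τ ∈ lieOf (zeros I ℂ)

/-- LAT: the relations between the determinants of the Deligne torus -/
def LatStmt : Prop :=
  ∀ (d : Type) [Fintype d] [DecidableEq d] (M : Set (Matrix d d ℂ)) (w : ℕ) (E : Matrix d d ℚ)
    (V : ℕ → Submodule ℂ (d → ℂ)) (π : ℕ → Matrix d d ℂ), Ctx M w E V π →
    ∀ (s : ℕ) (e : Fin s → Matrix d d ℂ), (∀ i, e i * e i = e i) → (∀ i, e i ∈ Zt M) →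
    ∃ k : (ℂ ≃+* ℂ) → Fin s → ℤ, (∀ τ i, ((Phi w π).map τ * e i).trace = (k τ i : ℂ)) ∧
      ∀ m : Fin s → ℤ,
        (∀ τ : ℂ ≃+* ℂ, ∀ T ∈ hodgeTorus w V, ∏ i, dete T ((e i).map τ) ^ m i = 1) ↔
        ∀ τ : ℂ ≃+* ℂ, ∑ i, m i * k τ i = 0

/-- FKD: the comparison of the determinants for families of the first kind -/
def FkdStmt : Prop :=
  ∀ (d : Type) [Fintype d] [DecidableEq d] (M : Set (Matrix d d ℂ)) (w : ℕ) (E : Matrix d d ℚ)
    (V : ℕ → Submodule ℂ (d → ℂ)) (π : ℕ → Matrix d d ℂ), Ctx M w E V π → 1 ≤ w →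
    FirstKind E M → ∀ (ℓ : ℕ) [Fact ℓ.Prime] (Γ : Type) [Group Γ] (ρ : Γ →* GL d ℚ_[ℓ])
      (ι : ℚ_[ℓ] →+* ℂ),
    (∃ Γ' : Subgroup Γ, Γ'.FiniteIndex ∧ ∀ γ ∈ Γ', ∀ B ∈ Cmt M,
      (ρ γ : Matrix d d ℚ_[ℓ]).map ι * B = B * (ρ γ : Matrix d d ℚ_[ℓ]).map ι) →
    (∀ γ : Γ, ∃ c : ℂ, ((ρ γ : Matrix d d ℚ_[ℓ]).map ι)ᵀ *
        E.map (algebraMap ℚ ℂ) * (ρ γ : Matrix d d ℚ_[ℓ]).map ι = c • E.map (algebraMap ℚ ℂ)) →
    (∃ γ : Γ, ∀ m : ℕ, 0 < m → (ρ γ : Matrix d d ℚ_[ℓ]).det ^ m ≠ 1) → DetRel M w V ρ ι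

/-! ### The group theory -/

/-- NTZ: a neat element `h` which commutes with the commutant and normalises the unipotents.
(a) its determinants `δ i` on the images of the primitive idempotents are products of powers of
multiplicatively independent numbers, and `h` is in every closed group `G` which contains the unipotents
and whose Lie algebra contains the corresponding central elements; (b) for some `N > 0`, the element
`z` of the centre whose `n i`-th power is `δ i ^ N` (where `n i` is the rank of `e i`) is in every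
closed group which contains the unipotents and `h`. -/
def NtzStmt : Prop :=
  ∀ (d : Type) [Fintype d] [DecidableEq d] (M : Set (Matrix d d ℂ)) (w : ℕ) (E : Matrix d d ℚ)
    (V : ℕ → Submodule ℂ (d → ℂ)) (π : ℕ → Matrix d d ℂ), Ctx M w E V π →
    ∀ (s : ℕ) (e : Fin s → Matrix d d ℂ), Prim M e → ∀ nn : Fin s → ℕ, (∀ i, 0 < nn i) →
    (∀ i, (e i).trace = (nn i : ℂ)) →
    ∀ h : Matrix d d ℂ, IsUnit h.det → Neat h → (∀ A ∈ UP M, h * A * h⁻¹ ∈ UP M) →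
    (∀ B ∈ Cmt M, h * B = B * h) →
    (∃ (r : ℕ) (x : Fin r → ℂ) (c : Fin r → Fin s → ℤ), (∀ j, x j ≠ 0) ∧
      (∀ k : Fin r → ℤ, ∏ j, x j ^ k j = 1 → k = 0) ∧
      (∀ i, dete h (e i) = ∏ j, x j ^ c j i) ∧
      ∀ G : Set (Matrix d d ℂ), (∀ a ∈ G, ∀ b ∈ G, a * b ∈ G) → (1 : Matrix d d ℂ) ∈ G →
        (∀ g ∈ zclosure ℂ ℂ G, g ∈ G) → (∀ u ∈ Uni M, u ∈ G) →
        (∀ j, ∑ i, ((c j i : ℂ) / (nn i : ℂ)) • e i ∈ lieOf G) → h ∈ G) ∧
    ∃ (N : ℕ) (ζ : Fin s → ℂ), 0 < N ∧ (∀ i, ζ i ≠ 0) ∧ (∀ i, ζ i ^ nn i = dete h (e i) ^ N) ∧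
      ∀ G : Set (Matrix d d ℂ), (∀ a ∈ G, ∀ b ∈ G, a * b ∈ G) → (1 : Matrix d d ℂ) ∈ G →
        (∀ g ∈ zclosure ℂ ℂ G, g ∈ G) → (∀ u ∈ Uni M, u ∈ G) → h ∈ G → ∑ i, ζ i • e i ∈ G

/-- LADE: the connected algebraic monodromy group of a representation of geometric type is the smallest
group which contains the unipotents and the Deligne torus -/
def LadEStmt : Prop :=
  ∀ (d : Type) [Fintype d] [DecidableEq d] (M : Set (Matrix d d ℂ)),
    (∀ a ∈ M, ∀ b ∈ M, a * b ∈ M) → (∀ γ ∈ M, ∃ A : Matrix d d ℤ, γ = A.map (fun x => (x : ℂ))) →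
    ∀ (w : ℕ) (E : Matrix d d ℚ) (V : ℕ → Submodule ℂ (d → ℂ)), 1 ≤ w → PolHodge w E V →
    (∀ γ ∈ M, γᵀ * E.map (algebraMap ℚ ℂ) * γ = E.map (algebraMap ℚ ℂ)) → TorusIn w V M →
    ∀ (ℓ : ℕ) [Fact ℓ.Prime] (Γ : Type) [Group Γ] [TopologicalSpace Γ] [IsTopologicalGroup Γ]
      [CompactSpace Γ] (ρ : Γ →* GL d ℚ_[ℓ]), Continuous ρ → GeoN M E w V ρ →
      ∀ (K : Type u) [Field K] [CharZero K] [Algebra ℚ_[ℓ] K], monodromy ρ K = GenM M w V K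

end Pool.Agent.MT100E
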